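import Pool.Agent.L7h62.SQ.Stm3

/-! Project SQ, part GEN. -/

set_option autoImplicit false

namespace Pool.Agent.L7h38.SQ

open Module NumberField IsDedekindDomain nonZeroDivisors
open Pool.Agent.TeamU (Over Unr)
open Pool.Agent.L7h62.SQ

section

variable {F H : Type} [Field F] [NumberField F] [Field H] [NumberField H] [Algebra F H]

theorem fixed (h2 : finrank F H = 2) (c : H ≃ₐ[F] H) (hc : c ≠ 1) :
    (∀ x, c (c x) = x) ∧ ∀ x, c x = x → ∃ y : F, algebraMap F H y = x := by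
  have hfd : FiniteDimensional F H := Module.finite_of_finrank_pos (by omega)
  have h3 : finrank (IntermediateField.fixedField (Subgroup.zpowers c)) H =
      Nat.card (Subgroup.zpowers c) := IntermediateField.finrank_fixedField_eq_card _
  have h4 : finrank F (IntermediateField.fixedField (Subgroup.zpowers c)) *
      finrank (IntermediateField.fixedField (Subgroup.zpowers c)) H = 2 := by
    rw [finrank_mul_finrank]
    exact h2
  rw [h3, Nat.card_zpowers] at h4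
  have h5 : orderOf c ≠ 1 := fun h => hc (orderOf_eq_one_iff.1 h)
  have h6 : orderOf c ∣ 2 := Dvd.intro_left _ h4
  have h7 : orderOf c = 2 := ((Nat.dvd_prime Nat.prime_two).1 h6).resolve_left h5
  have h8 : finrank F (IntermediateField.fixedField (Subgroup.zpowers c)) = 1 := by
    rw [h7] at h4
    omega
  have h9 : IntermediateField.fixedField (Subgroup.zpowers c) = ⊥ :=
    IntermediateField.finrank_eq_one_iff.1 h8
  refine ⟨fun x => ?_, fun x hx => ?_⟩
  · have h10 : c ^ 2 = 1 := by rw [← h7]; exact pow_orderOf_eq_one c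
    have h11 := congrArg (fun f : H ≃ₐ[F] H => f x) h10
    simpa [pow_two] using h11
  · have h10 : x ∈ IntermediateField.fixedField (Subgroup.zpowers c) := by
      rw [IntermediateField.mem_fixedField_iff]
      intro f hf
      have h11 : c ∈ MulAction.stabilizer (H ≃ₐ[F] H) x := by
        rw [MulAction.mem_stabilizer_iff]
        exact hx
      have h12 := (Subgroup.zpowers_le.2 h11) hf
      rw [MulAction.mem_stabilizer_iff] at h12
      exact h12
    rw [h9, IntermediateField.mem_bot] at h10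
    exact h10

/-- the action on the integers -/
noncomputable def cR (c : H ≃ₐ[F] H) : 𝓞 H →+* 𝓞 H :=
  (galRestrict (𝓞 F) F H (𝓞 H) c : 𝓞 H →+* 𝓞 H)

theorem cR_coe (c : H ≃ₐ[F] H) (x : 𝓞 H) : ((cR c x : 𝓞 H) : H) = c (x : H) :=
  algebraMap_galRestrict_apply (𝓞 F) c x

theorem cR_alg (c : H ≃ₐ[F] H) : (cR c).comp (algebraMap (𝓞 F) (𝓞 H)) = algebraMap (𝓞 F) (𝓞 H) := by
  ext x
  exact congrArg _ ((galRestrict (𝓞 F) F H (𝓞 H) c).commutes x)

theorem map_ext (c : H ≃ₐ[F] H) (I : Ideal (𝓞 F)) :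
    (I.map (algebraMap (𝓞 F) (𝓞 H))).map (cR c) = I.map (algebraMap (𝓞 F) (𝓞 H)) := by
  rw [Ideal.map_map, cR_alg]

theorem lemK (h2 : finrank F H = 2) (c : H ≃ₐ[F] H) (hc : c ≠ 1)
    (hU : ∀ u : (𝓞 H)ˣ, ((u : 𝓞 H) : H) * c ((u : 𝓞 H) : H) = 1 →
      ∃ v : (𝓞 H)ˣ, ((u : 𝓞 H) : H) = ((v : 𝓞 H) : H) / c ((v : 𝓞 H) : H))
    {I J : Ideal (𝓞 H)} (hI : I ≠ ⊥) (hJ : J ≠ ⊥) (hcI : I.map (cR c) = I)
    (hcJ : J.map (cR c) = J) {x y : 𝓞 H} (hx : x ≠ 0) (hy : y ≠ 0)
    (h : Ideal.span {x} * I = Ideal.span {y} * J) :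
    ∃ a b : 𝓞 F, a ≠ 0 ∧ b ≠ 0 ∧ (Ideal.span {a}).map (algebraMap (𝓞 F) (𝓞 H)) * I =
      (Ideal.span {b}).map (algebraMap (𝓞 F) (𝓞 H)) * J := by
  obtain ⟨hcc, hfix⟩ := fixed h2 c hc
  have h3 : Ideal.span {cR c x} * I = Ideal.span {cR c y} * J := by
    have := congrArg (Ideal.map (cR c)) h
    rwa [Ideal.map_mul, Ideal.map_mul, Ideal.map_span, Ideal.map_span, hcI, hcJ,
      Set.image_singleton, Set.image_singleton] at this
  have h4 : Ideal.span {x * cR c y} * (I * J) = Ideal.span {y * cR c x} * (I * J) := by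
    rw [← Ideal.span_singleton_mul_span_singleton, ← Ideal.span_singleton_mul_span_singleton]
    calc Ideal.span {x} * Ideal.span {cR c y} * (I * J)
        = (Ideal.span {x} * I) * (Ideal.span {cR c y} * J) := by ring
      _ = (Ideal.span {y} * J) * (Ideal.span {cR c x} * I) := by rw [h, h3]
      _ = Ideal.span {y} * Ideal.span {cR c x} * (I * J) := by ring
  have h5 : Ideal.span {x * cR c y} = Ideal.span {y * cR c x} :=
    mul_right_cancel₀ (mul_ne_zero hI hJ) h4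
  rw [Ideal.span_singleton_eq_span_singleton] at h5
  obtain ⟨u, hu⟩ := h5
  have hX : (x : H) ≠ 0 := by exact_mod_cast hx
  have hY : (y : H) ≠ 0 := by exact_mod_cast hy
  have hcX : c (x : H) ≠ 0 := by simpa using hX
  have hcY : c (y : H) ≠ 0 := by simpa using hY
  have hu1 : (x : H) * c (y : H) * ((u : 𝓞 H) : H) = (y : H) * c (x : H) := by
    have := congrArg (fun t : 𝓞 H => (t : H)) hu
    simpa [cR_coe] using this
  have hu2 : c (x : H) * (y : H) * c ((u : 𝓞 H) : H) = c (y : H) * (x : H) := by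
    have := congrArg c hu1
    simpa [hcc] using this
  have hu3 : ((u : 𝓞 H) : H) * c ((u : 𝓞 H) : H) = 1 := by
    have h6 : ((x : H) * c (y : H)) * (c (x : H) * (y : H)) ≠ 0 :=
      mul_ne_zero (mul_ne_zero hX hcY) (mul_ne_zero hcX hY)
    apply mul_left_cancel₀ h6
    calc ((x : H) * c (y : H)) * (c (x : H) * (y : H)) * (((u : 𝓞 H) : H) * c ((u : 𝓞 H) : H))
        = ((x : H) * c (y : H) * ((u : 𝓞 H) : H)) * (c (x : H) * (y : H) * c ((u : 𝓞 H) : H)) := by
          ring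
      _ = ((x : H) * c (y : H)) * (c (x : H) * (y : H)) * 1 := by
          rw [hu1, hu2]
          ring
  obtain ⟨v, hv⟩ := hU u hu3
  have hV : ((v : 𝓞 H) : H) ≠ 0 := by
    have : (v : 𝓞 H) ≠ 0 := v.ne_zero
    exact_mod_cast this
  have hcV : c ((v : 𝓞 H) : H) ≠ 0 := by simpa using hV
  obtain ⟨f, hf⟩ := hfix ((y : H) / (x : H) / ((v : 𝓞 H) : H)) (by
    rw [map_div₀, map_div₀]
    rw [hv] at hu1
    rw [div_div, div_div, div_eq_div_iff (mul_ne_zero hcX hcV) (mul_ne_zero hX hV)]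
    field_simp at hu1
    linear_combination hu1)
  obtain ⟨b, a, ha, rfl⟩ := IsFractionRing.div_surjective (A := 𝓞 F) f
  have ha0 : a ≠ 0 := nonZeroDivisors.ne_zero ha
  have ha1 : ((algebraMap (𝓞 F) (𝓞 H) a : 𝓞 H) : H) ≠ 0 := by
    have : algebraMap (𝓞 F) (𝓞 H) a ≠ 0 := by simpa using ha0
    exact_mod_cast this
  have e1 : algebraMap F H (algebraMap (𝓞 F) F b / algebraMap (𝓞 F) F a) =
      ((algebraMap (𝓞 F) (𝓞 H) b : 𝓞 H) : H) / ((algebraMap (𝓞 F) (𝓞 H) a : 𝓞 H) : H) := by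
    rw [map_div₀]
    rfl
  rw [e1] at hf
  have e2 : (y : H) * ((algebraMap (𝓞 F) (𝓞 H) a : 𝓞 H) : H) =
      (x : H) * ((v : 𝓞 H) : H) * ((algebraMap (𝓞 F) (𝓞 H) b : 𝓞 H) : H) := by
    field_simp at hf
    linear_combination -hf
  have e3 : y * algebraMap (𝓞 F) (𝓞 H) a = x * (v : 𝓞 H) * algebraMap (𝓞 F) (𝓞 H) b := by
    apply NumberField.RingOfIntegers.ext
    simpa using e2
  have hb0 : b ≠ 0 := by
    rintro rfl
    rw [map_zero, mul_zero] at e3
    have : algebraMap (𝓞 F) (𝓞 H) a = 0 := (mul_eq_zero.1 e3).resolve_left hy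
    apply ha0
    simpa using this
  refine ⟨a, b, ha0, hb0, ?_⟩
  rw [Ideal.map_span, Ideal.map_span, Set.image_singleton, Set.image_singleton]
  have hxs : Ideal.span {x} ≠ (⊥ : Ideal (𝓞 H)) := by
    rw [Ne, Ideal.span_singleton_eq_bot]
    exact hx
  apply mul_left_cancel₀ (a := Ideal.span {x}) hxs
  have hvt : Ideal.span {(v : 𝓞 H)} = 1 := by
    rw [Ideal.one_eq_top]
    exact Ideal.span_singleton_eq_top.2 v.isUnit
  calc Ideal.span {x} * (Ideal.span {algebraMap (𝓞 F) (𝓞 H) a} * I)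
      = Ideal.span {algebraMap (𝓞 F) (𝓞 H) a} * (Ideal.span {x} * I) := by ring
    _ = (Ideal.span {y} * Ideal.span {algebraMap (𝓞 F) (𝓞 H) a}) * J := by rw [h]; ring
    _ = (Ideal.span {x} * Ideal.span {(v : 𝓞 H)} * Ideal.span {algebraMap (𝓞 F) (𝓞 H) b}) * J := by
        rw [Ideal.span_singleton_mul_span_singleton, Ideal.span_singleton_mul_span_singleton,
          Ideal.span_singleton_mul_span_singleton, e3]
    _ = Ideal.span {x} * (Ideal.span {algebraMap (𝓞 F) (𝓞 H) b} * J) := by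
        rw [hvt]
        ring

theorem norm_le (v : HeightOneSpectrum (𝓞 F)) (P : HeightOneSpectrum (𝓞 H)) (h : Over P v) :
    Ideal.absNorm v.asIdeal ≤ Ideal.absNorm P.asIdeal := by
  have h1 : v.asIdeal ≤ P.asIdeal.comap (algebraMap (𝓞 F) (𝓞 H)) := h.symm.le
  have hf : Function.Injective (Ideal.quotientMap P.asIdeal (algebraMap (𝓞 F) (𝓞 H)) h1) :=
    Ideal.quotientMap_injective' h.le
  have : Finite (𝓞 H ⧸ P.asIdeal) := Ideal.finiteQuotientOfFreeOfNeBot _ P.ne_bot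
  have h5 : Nat.card (𝓞 F ⧸ v.asIdeal) ≤ Nat.card (𝓞 H ⧸ P.asIdeal) :=
    Nat.card_le_card_of_injective _ hf
  rw [Ideal.absNorm_apply, Ideal.absNorm_apply, Submodule.cardQuot_apply, Submodule.cardQuot_apply]
  exact h5

theorem norm_ge (v : HeightOneSpectrum (𝓞 F)) : 2 ≤ Ideal.absNorm v.asIdeal := by
  have h1 : Ideal.absNorm v.asIdeal ≠ 0 := by
    rw [Ne, Ideal.absNorm_eq_zero_iff]
    exact v.ne_bot
  have h2 : Ideal.absNorm v.asIdeal ≠ 1 := by
    rw [Ne, Ideal.absNorm_eq_one_iff]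
    exact v.isPrime.ne_top
  omega

theorem ram (h2 : finrank F H = 2) (P : HeightOneSpectrum (𝓞 H)) (hP : ¬ Unr F P) :
    ∃ v : HeightOneSpectrum (𝓞 F), P.asIdeal.LiesOver v.asIdeal ∧
      v.asIdeal.ramificationIdx' P.asIdeal = 2 ∧
      v.asIdeal.map (algebraMap (𝓞 F) (𝓞 H)) = P.asIdeal ^ 2 := by
  unfold Unr at hP
  push Not at hP
  obtain ⟨v, hov, a, ha⟩ := hP
  have hl : P.asIdeal.LiesOver v.asIdeal := ⟨hov.symm⟩
  refine ⟨v, hl, ?_⟩
  obtain ⟨e, he⟩ : ∃ e, e = v.asIdeal.ramificationIdx' P.asIdeal := ⟨_, rfl⟩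
  have he1 : e ≠ 1 := by
    intro h
    have h3 := HeightOneSpectrum.valuation_liesOver (K := F) H v P a
    rw [← he, h, pow_one] at h3
    exact ha h3.symm
  have he0 : e ≠ 0 := by
    rw [he]
    have := P.isPrime
    exact Ideal.IsDedekindDomain.ramificationIdx'_ne_zero_of_liesOver P.asIdeal v.ne_bot
  have hle : v.asIdeal.map (algebraMap (𝓞 F) (𝓞 H)) ≤ P.asIdeal ^ e := by
    rw [he]
    exact Ideal.le_pow_ramificationIdx'
  obtain ⟨Q, hQ⟩ := Ideal.dvd_iff_le.2 hle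
  have hfr : finrank (𝓞 F) (𝓞 H) = 2 := by
    rw [← h2]
    exact (IsFractionRing.finrank_eq (𝓞 F) F (𝓞 H) H).symm
  have hN := congrArg Ideal.absNorm hQ
  rw [Ideal.absNorm_algebraMap, hfr, map_mul, map_pow] at hN
  have n1 := norm_ge v
  have n2 := norm_le v P hov
  obtain ⟨p, hp⟩ : ∃ p, p = Ideal.absNorm v.asIdeal := ⟨_, rfl⟩
  obtain ⟨q, hq⟩ : ∃ q, q = Ideal.absNorm P.asIdeal := ⟨_, rfl⟩
  obtain ⟨k, hk⟩ : ∃ k, k = Ideal.absNorm Q := ⟨_, rfl⟩
  rw [← hp, ← hq, ← hk] at hN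
  rw [← hp] at n1
  rw [← hp, ← hq] at n2
  have hk0 : 1 ≤ k := by
    rcases Nat.eq_zero_or_pos k with h | h
    · rw [h, mul_zero] at hN
      have : 0 < p ^ 2 := by positivity
      omega
    · exact h
  have h5 : p ^ e ≤ p ^ 2 := by
    calc p ^ e ≤ q ^ e := Nat.pow_le_pow_left n2 e
      _ = q ^ e * 1 := (mul_one _).symm
      _ ≤ q ^ e * k := Nat.mul_le_mul_left _ hk0
      _ = p ^ 2 := hN.symm
  have h6 : e ≤ 2 := (Nat.pow_le_pow_iff_right (by omega)).1 h5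
  have h7 : e = 2 := by omega
  have h8 : k = 1 := by
    rw [h7] at hN
    have h9 : p ^ 2 ≤ q ^ 2 := Nat.pow_le_pow_left n2 2
    have h10 : 0 < p ^ 2 := by positivity
    by_contra hcon
    have h11 : 2 ≤ k := by omega
    nlinarith
  have h9 : Q = ⊤ := by
    rw [hk] at h8
    exact Ideal.absNorm_eq_one_iff.1 h8
  refine ⟨by rw [← he]; exact h7, ?_⟩
  rw [hQ, h9, h7, ← Ideal.one_eq_top, mul_one]

theorem cP (P : Ideal (𝓞 H)) (hP : P ≠ ⊥) (hPp : P.IsPrime) (c : H ≃ₐ[F] H)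
    (h : (P ^ 2).map (cR c) = P ^ 2) : P.map (cR c) = P := by
  rw [Ideal.map_pow] at h
  have h1 : Prime P := (Ideal.prime_iff_isPrime hP).2 hPp
  have h2 : P ∣ P.map (cR c) := h1.dvd_of_dvd_pow (by rw [h]; exact dvd_pow_self P two_ne_zero)
  obtain ⟨R, hR⟩ := h2
  rw [hR, mul_pow] at h
  have h3 : R ^ 2 = 1 := mul_left_cancel₀ (pow_ne_zero 2 hP) (by rw [h, mul_one])
  have h4 : R = ⊤ := by
    rw [eq_top_iff, ← Ideal.one_eq_top, ← h3]
    exact Ideal.pow_le_self two_ne_zero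
  rw [hR, h4, ← Ideal.one_eq_top, mul_one]

end

theorem s_GEN : S_GEN := by
  intro F H _ _ _ _ _ h2 c hc hU ⟨P, hP⟩
  obtain ⟨v, hl, he, hmap⟩ := ram h2 P hP
  have hPne := P.ne_bot
  have hcP : P.asIdeal.map (cR c) = P.asIdeal := by
    apply cP P.asIdeal hPne P.isPrime c
    rw [← hmap, map_ext]
  obtain ⟨φ, hφ⟩ : ∃ φ, φ = ClassGroup.extendedHom (𝓞 F) (𝓞 H) := ⟨_, rfl⟩
  have hinj : Function.Injective φ := by
    rw [injective_iff_map_eq_one]
    intro x hx
    obtain ⟨I, rfl⟩ := ClassGroup.mk0_surjective x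
    rw [hφ, ClassGroup.extendedHom_mk0, ← map_one (ClassGroup.mk0 (R := 𝓞 H)),
      ClassGroup.mk0_eq_mk0_iff] at hx
    obtain ⟨x, y, hx0, hy0, hxy⟩ := hx
    have hI0 : (I : Ideal (𝓞 F)) ≠ ⊥ := nonZeroDivisors.ne_zero I.2
    have hmI : (I : Ideal (𝓞 F)).map (algebraMap (𝓞 F) (𝓞 H)) ≠ ⊥ :=
      Ideal.map_ne_bot_of_ne_bot hI0
    obtain ⟨a, b, ha, hb, hab⟩ := lemK h2 c hc hU hmI (J := ⊤)
      top_ne_bot (map_ext c _) (by
        rw [Ideal.map_top]) hx0 hy0 (by simpa using hxy)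
    have h3 : (Ideal.span {a} * (I : Ideal (𝓞 F))).map (algebraMap (𝓞 F) (𝓞 H)) =
        (Ideal.span {b}).map (algebraMap (𝓞 F) (𝓞 H)) := by
      rw [Ideal.map_mul, hab, ← Ideal.one_eq_top, mul_one]
    have h4 : Ideal.span {a} * (I : Ideal (𝓞 F)) = Ideal.span {b} := by
      have h5 := FractionalIdeal.extendedHom_injective (𝓞 F) F H (𝓞 H)
      have h6 := @h5 ((Ideal.span {a} * (I : Ideal (𝓞 F)) : Ideal (𝓞 F)) : FractionalIdeal (𝓞 F)⁰ F)
        ((Ideal.span {b} : Ideal (𝓞 F)) : FractionalIdeal (𝓞 F)⁰ F) (by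
          dsimp only
          rw [FractionalIdeal.extendedHom_coeIdeal_eq_map,
            FractionalIdeal.extendedHom_coeIdeal_eq_map, h3])
      exact FractionalIdeal.coeIdeal_injective h6
    rw [← map_one (ClassGroup.mk0 (R := 𝓞 F)), ClassGroup.mk0_eq_mk0_iff]
    exact ⟨a, b, ha, hb, by simpa using h4⟩
  obtain ⟨p, hp⟩ : ∃ p : ClassGroup (𝓞 H), p = ClassGroup.mk0
    ⟨P.asIdeal, mem_nonZeroDivisors_iff_ne_zero.2 hPne⟩ := ⟨_, rfl⟩
  have hp2 : p ^ 2 ∈ φ.range := by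
    refine ⟨ClassGroup.mk0 ⟨v.asIdeal, mem_nonZeroDivisors_iff_ne_zero.2 v.ne_bot⟩, ?_⟩
    rw [hφ, ClassGroup.extendedHom_mk0, hp, ← map_pow]
    congr 1
    apply Subtype.ext
    exact hmap
  have hp1 : p ∉ φ.range := by
    rintro ⟨x, hx⟩
    obtain ⟨I, rfl⟩ := ClassGroup.mk0_surjective x
    rw [hφ, ClassGroup.extendedHom_mk0, hp] at hx
    have hx' := hx.symm
    rw [ClassGroup.mk0_eq_mk0_iff] at hx'
    obtain ⟨x, y, hx0, hy0, hxy⟩ := hx'
    have hI0 : (I : Ideal (𝓞 F)) ≠ ⊥ := nonZeroDivisors.ne_zero I.2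
    have hmI : (I : Ideal (𝓞 F)).map (algebraMap (𝓞 F) (𝓞 H)) ≠ ⊥ :=
      Ideal.map_ne_bot_of_ne_bot hI0
    obtain ⟨a, b, ha, hb, hab⟩ := lemK h2 c hc hU hPne hmI hcP (map_ext c _) hx0 hy0 hxy
    have hA : Ideal.span {a} ≠ (⊥ : Ideal (𝓞 F)) := by
      rw [Ne, Ideal.span_singleton_eq_bot]
      exact ha
    have hB : Ideal.span {b} * (I : Ideal (𝓞 F)) ≠ (⊥ : Ideal (𝓞 F)) := by
      apply mul_ne_zero ?_ hI0
      rw [Ne, Ideal.zero_eq_bot, Ideal.span_singleton_eq_bot]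
      exact hb
    rw [← Ideal.map_mul] at hab
    have h3 := congrArg (emultiplicity P.asIdeal) hab
    rw [emultiplicity_mul P.prime,
      Ideal.IsDedekindDomain.emultiplicity_map_eq_ramificationIdx'_mul hA v.irreducible
        P.irreducible hPne,
      Ideal.IsDedekindDomain.emultiplicity_map_eq_ramificationIdx'_mul hB v.irreducible
        P.irreducible hPne, he,
      (FiniteMultiplicity.of_prime_left P.prime hPne).emultiplicity_self,
      (FiniteMultiplicity.of_prime_left v.prime hA).emultiplicity_eq_multiplicity,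
      (FiniteMultiplicity.of_prime_left v.prime hB).emultiplicity_eq_multiplicity] at h3
    have h4 : 2 * multiplicity v.asIdeal (Ideal.span {a}) + 1 =
        2 * multiplicity v.asIdeal (Ideal.span {b} * (I : Ideal (𝓞 F))) := by
      exact_mod_cast h3
    omega
  have hcard : Nat.card φ.range = classNumber F := by
    rw [NumberField.classNumber, ← Nat.card_eq_fintype_card]
    exact (Nat.card_congr (MonoidHom.ofInjective hinj).toEquiv).symm
  have h7 : φ.range.index * Nat.card φ.range = classNumber H := by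
    rw [NumberField.classNumber, ← Nat.card_eq_fintype_card]
    exact φ.range.index_mul_card
  have h8 : 2 ∣ φ.range.index := by
    have h9 : orderOf (p : ClassGroup (𝓞 H) ⧸ φ.range) = 2 := by
      apply orderOf_eq_prime
      · rw [← QuotientGroup.mk_pow, QuotientGroup.eq_one_iff]
        exact hp2
      · rw [Ne, QuotientGroup.eq_one_iff]
        exact hp1
    rw [Subgroup.index, ← h9]
    exact orderOf_dvd_natCard _
  rw [hcard] at h7
  rw [← h7]
  exact Nat.mul_dvd_mul_right h8 _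

end Pool.Agent.L7h38.SQ
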